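import Pool.Agent.Q241.SN.Lim6

set_option autoImplicit false

/-!
# MP_155064_nt: sharp bounds for the antiderivatives `S_n(t)` of the argument of zeta, all orders

Under the Riemann hypothesis, for every `n ≥ 1` (in particular for every even `n ≥ 2`),
`-(A_n^- + o(1)) log t / (log log t)^(n+1) ≤ S_n(t) ≤ (A_n^+ + o(1)) log t / (log log t)^(n+1)`, where
`A_n^- = π^n M_(n+1) / (2 (n+1)!)` and `A_n^+ = -π^n m_(n+1) / (2 (n+1)!)`, with `M_k`, `m_k` the maximum
and the minimum of the Bernoulli polynomial `B_k` on the unit interval.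
-/

open Set Filter Complex MeasureTheory
open scoped Nat

namespace Pool.Agent.Results.MP_155064_nt.BernoulliConstants

/-- The argument of `ζ(1/2 + i t)` by continuous variation along the segments from `2` to `2 + i t` and
then to `1/2 + i t`, starting from `0` at `2`: the imaginary part of the integral of `ζ'/ζ` along this path. -/
noncomputable def arg (t : ℝ) : ℝ :=
  (∫ u in (0 : ℝ)..t, (deriv riemannZeta (2 + u * I) / riemannZeta (2 + u * I)).re) -
    ∫ x in (1 / 2 : ℝ)..2, (deriv riemannZeta (x + t * I) / riemannZeta (x + t * I)).im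

/-- `S(t)`: it is `arg ζ(1/2 + i t) / π` if `ζ(1/2 + i t) ≠ 0`, and the mean of the left and right limits
of this function otherwise. -/
noncomputable def S0 (t : ℝ) : ℝ :=
  open Classical in
  if riemannZeta (1 / 2 + t * I) ≠ 0 then arg t / Real.pi
  else (Function.leftLim (fun u => arg u / Real.pi) t + Function.rightLim (fun u => arg u / Real.pi) t) / 2

/-- Iterated integrals of `log |ζ|`: `It 0 σ = log |ζ(σ)|`, `It (k+1) σ = ∫_σ^∞ It k x dx`. -/
noncomputable def It : ℕ → ℝ → ℝ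
  | 0, σ => Real.log ‖riemannZeta (σ : ℂ)‖
  | k + 1, σ => ∫ x in Ioi σ, It k x

/-- The constants of integration: `δ (2k) = (-1)^(k-1) / ((2k)! 2^(2k))` and
`δ (2k-1) = ((-1)^(k-1) / π) ∫_{1/2}^∞ ... ∫ log |ζ|` (`2k-1` integrals), for `k ≥ 1`. -/
noncomputable def δ (n : ℕ) : ℝ :=
  if Even n then (-1) ^ (n / 2 + 1) / (n ! * 2 ^ n) else (-1) ^ (n / 2) / Real.pi * It n (1 / 2)

/-- The antiderivatives: `S 0` is `S(t)`, and `S (n+1) t = ∫_0^t S n + δ (n+1)`. -/
noncomputable def S : ℕ → ℝ → ℝ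
  | 0, t => S0 t
  | n + 1, t => (∫ u in (0 : ℝ)..t, S n u) + δ (n + 1)

/-- The maximum `M_k` of the Bernoulli polynomial `B_k` on the unit interval. -/
noncomputable def M (k : ℕ) : ℝ :=
  sSup ((fun x : ℝ => Polynomial.aeval x (Polynomial.bernoulli k)) '' Icc 0 1)

/-- The minimum `m_k` of the Bernoulli polynomial `B_k` on the unit interval. -/
noncomputable def m (k : ℕ) : ℝ :=
  sInf ((fun x : ℝ => Polynomial.aeval x (Polynomial.bernoulli k)) '' Icc 0 1)

/-- `A_n^- = π^n M_(n+1) / (2 (n+1)!)`. -/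
noncomputable def Aminus (n : ℕ) : ℝ := Real.pi ^ n * M (n + 1) / (2 * (n + 1)!)

/-- `A_n^+ = -π^n m_(n+1) / (2 (n+1)!)`. -/
noncomputable def Aplus (n : ℕ) : ℝ := -(Real.pi ^ n * m (n + 1)) / (2 * (n + 1)!)

/-- `Λ_n(t) = log t / (log log t)^(n+1)`. -/
noncomputable def Λ (n : ℕ) (t : ℝ) : ℝ := Real.log t / Real.log (Real.log t) ^ (n + 1)

theorem It_eq (n : ℕ) : It n = Q241.SN.IZ n := by
  induction n with
  | zero => rfl
  | succ n ih =>
    funext σ
    show ∫ x in Ioi σ, It n x = _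
    rw [ih]
    rfl

theorem δ_eq (n : ℕ) : δ n = Q241.SN.dl n := by
  unfold δ Q241.SN.dl
  rw [It_eq]

theorem chn : Q241.SN.Chn S where
  zero := fun t _ hne => by
    show S0 t = _
    unfold S0
    rw [if_pos hne]
    rfl
  succ := fun n t _ => by
    show (∫ u in (0 : ℝ)..t, S n u) + δ (n + 1) = _
    rw [δ_eq]

/-- Under the Riemann hypothesis, for every `n ≥ 1` and `ε > 0`, for all large `t`:
`-(A_n^- + ε) Λ_n(t) ≤ S_n(t) ≤ (A_n^+ + ε) Λ_n(t)`. -/
theorem result (hRH : RiemannHypothesis) (n : ℕ) (hn : 1 ≤ n) (ε : ℝ) (hε : 0 < ε) :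
    ∀ᶠ t : ℝ in atTop, -(Aminus n + ε) * Λ n t ≤ S n t ∧ S n t ≤ (Aplus n + ε) * Λ n t := by
  have hM : M (n + 1) = Q241.SN.BM (n + 1) := by
    unfold M Q241.SN.BM
    congr 1
    refine image_congr fun x _ => ?_
    rw [bernoulliFun, Polynomial.eval_map_algebraMap]
  have hm : m (n + 1) = Q241.SN.Bm (n + 1) := by
    unfold m Q241.SN.Bm
    congr 1
    refine image_congr fun x _ => ?_
    rw [bernoulliFun, Polynomial.eval_map_algebraMap]
  have h1 : Q241.SN.cL n = -Aminus n := by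
    unfold Q241.SN.cL Q241.SN.lo Aminus
    rw [hM]
    field_simp
  have h2 : Q241.SN.cU n = Aplus n := by
    unfold Q241.SN.cU Q241.SN.hi Aplus
    rw [hm]
    field_simp
  filter_upwards [chn.main hRH n hn hε] with t ht
  rw [h1, h2] at ht
  refine ⟨?_, ht.2⟩
  have h3 : -(Aminus n + ε) * Λ n t = (-Aminus n - ε) * Λ n t := by ring
  rw [h3]
  exact ht.1

end Pool.Agent.Results.MP_155064_nt.BernoulliConstants
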